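import Pool.Agent.FZ.Defs
import Pool.Agent.ZC.Mertens

/-!
# FZ/DMert: Mertens' theorem for primes, and sums of Lipschitz functions of `log p`

* `mertens_prime`: `ZC.mertens` minus the proper prime powers (`∑_{p, k ≥ 2} log p / p^k ≤ ∑ log p/(p(p-1)) < ∞`).
* `mertens_lip`: with `E(x) = W(a, x) - (x - a)` and `D(x) = ∑ log p/p φ(log p) - ∫_a^x φ - φ(x) E(x)`:
  `|D(x') - D(x)| ≤ K (x' - x)` if `x ≤ x' ≤ x + 1`, `K = (2C+2) Bl`.
-/

namespace Pool.Agent.FZ

open MeasureTheory Finset

/-- the primes `p` with `a < log p ≤ b` -/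
noncomputable def prs (a b : ℝ) : Finset ℕ :=
  (Finset.range (⌊Real.exp b⌋₊ + 1)).filter (fun p => p.Prime ∧ a < Real.log p ∧ Real.log p ≤ b)

theorem mem_prs {a b : ℝ} {p : ℕ} : p ∈ prs a b ↔ p.Prime ∧ a < Real.log p ∧ Real.log p ≤ b := by
  unfold prs
  rw [Finset.mem_filter, Finset.mem_range]
  refine ⟨fun h => h.2, fun h => ⟨?_, h⟩⟩
  have hp : (0 : ℝ) < p := by exact_mod_cast h.1.pos
  have h1 : (p : ℝ) ≤ Real.exp b := by
    rw [← Real.log_le_iff_le_exp hp]
    exact h.2.2
  have := Nat.le_floor h1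
  omega

theorem prs_split {a b c : ℝ} (hab : a ≤ b) (hbc : b ≤ c) (f : ℕ → ℝ) :
    ∑ p ∈ prs a c, f p = ∑ p ∈ prs a b, f p + ∑ p ∈ prs b c, f p := by
  classical
  rw [← Finset.sum_union]
  · congr 1
    ext p
    rw [Finset.mem_union, mem_prs, mem_prs, mem_prs]
    constructor
    · rintro ⟨h1, h2, h3⟩
      by_cases h : Real.log p ≤ b
      · exact Or.inl ⟨h1, h2, h⟩
      · exact Or.inr ⟨h1, not_le.1 h, h3⟩
    · rintro (⟨h1, h2, h3⟩ | ⟨h1, h2, h3⟩)
      · exact ⟨h1, h2, h3.trans hbc⟩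
      · exact ⟨h1, hab.trans_lt h2, h3⟩
  · rw [Finset.disjoint_left]
    intro p hp hq
    rw [mem_prs] at hp hq
    exact absurd hq.2.1 (not_lt.2 hp.2.2)

theorem np_summable : Summable fun n : ℕ =>
    (if n.Prime then 0 else ArithmeticFunction.vonMangoldt n) / (n : ℝ) := by
  have h := ArithmeticFunction.vonMangoldt.summable_residueClass_non_primes_div (q := 1) (0 : ZMod 1)
  refine h.congr fun n => ?_
  congr 1
  by_cases hn : n.Prime
  · simp [hn]
  · simp only [hn, if_false]
    unfold ArithmeticFunction.vonMangoldt.residueClass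
    rw [Set.indicator_of_mem]
    exact Subsingleton.elim _ _

theorem mertens_prime : ∃ C : ℝ, 0 < C ∧ ∀ a b : ℝ, 0 ≤ a → a ≤ b →
    |(∑ p ∈ prs a b, Real.log p / (p : ℝ)) - (b - a)| ≤ C := by
  obtain ⟨C, hC, hM⟩ := ZC.mertens
  set S : ℝ := ∑' n : ℕ, (if n.Prime then 0 else ArithmeticFunction.vonMangoldt n) / (n : ℝ) with hS
  have hnn : ∀ n : ℕ, 0 ≤ (if n.Prime then 0 else ArithmeticFunction.vonMangoldt n) / (n : ℝ) := by
    intro n
    apply div_nonneg _ (Nat.cast_nonneg n)
    split_ifs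
    · exact le_rfl
    · exact ArithmeticFunction.vonMangoldt_nonneg
  have hS0 : 0 ≤ S := tsum_nonneg hnn
  refine ⟨2 * C + S, by positivity, fun a b ha hab => ?_⟩
  have hfl : ⌊Real.exp a⌋₊ ≤ ⌊Real.exp b⌋₊ := Nat.floor_le_floor (Real.exp_le_exp.2 hab)
  have ha1 := hM (Real.exp a) (Real.one_le_exp ha)
  have hb1 := hM (Real.exp b) (Real.one_le_exp (ha.trans hab))
  rw [Real.log_exp] at ha1 hb1
  have hsp : (∑ n ∈ Finset.Icc 1 ⌊Real.exp b⌋₊, ArithmeticFunction.vonMangoldt n / (n : ℝ)) =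
      (∑ n ∈ Finset.Icc 1 ⌊Real.exp a⌋₊, ArithmeticFunction.vonMangoldt n / (n : ℝ)) +
      ∑ n ∈ Finset.Ioc ⌊Real.exp a⌋₊ ⌊Real.exp b⌋₊, ArithmeticFunction.vonMangoldt n / (n : ℝ) := by
    rw [← Finset.sum_union]
    · congr 1
      ext n
      simp only [Finset.mem_union, Finset.mem_Icc, Finset.mem_Ioc]
      omega
    · rw [Finset.disjoint_left]
      intro n hn hn2
      simp only [Finset.mem_Icc, Finset.mem_Ioc] at hn hn2
      omega
  have hdec : (∑ n ∈ Finset.Ioc ⌊Real.exp a⌋₊ ⌊Real.exp b⌋₊, ArithmeticFunction.vonMangoldt n / (n : ℝ)) =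
      (∑ p ∈ prs a b, Real.log p / (p : ℝ)) +
      ∑ n ∈ Finset.Ioc ⌊Real.exp a⌋₊ ⌊Real.exp b⌋₊,
        (if n.Prime then 0 else ArithmeticFunction.vonMangoldt n) / (n : ℝ) := by
    have h1 : prs a b = (Finset.Ioc ⌊Real.exp a⌋₊ ⌊Real.exp b⌋₊).filter (fun n => n.Prime) := by
      ext p
      rw [mem_prs, Finset.mem_filter, Finset.mem_Ioc]
      constructor
      · rintro ⟨h1, h2, h3⟩
        have hp : (0 : ℝ) < p := by exact_mod_cast h1.pos
        refine ⟨⟨?_, ?_⟩, h1⟩
        · rw [Nat.floor_lt (Real.exp_pos a).le, ← Real.lt_log_iff_exp_lt hp]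
          exact h2
        · apply Nat.le_floor
          rw [← Real.log_le_iff_le_exp hp]
          exact h3
      · rintro ⟨⟨h2, h3⟩, h1⟩
        have hp : (0 : ℝ) < p := by exact_mod_cast h1.pos
        refine ⟨h1, ?_, ?_⟩
        · rw [Real.lt_log_iff_exp_lt hp, ← Nat.floor_lt (Real.exp_pos a).le]
          exact h2
        · rw [Real.log_le_iff_le_exp hp, ← Nat.le_floor_iff (Real.exp_pos b).le]
          exact h3
    rw [h1, Finset.sum_filter, ← Finset.sum_add_distrib]
    apply Finset.sum_congr rfl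
    intro n _
    by_cases hn : n.Prime
    · simp only [hn, if_true, zero_div, add_zero]
      rw [ArithmeticFunction.vonMangoldt_apply_prime hn]
    · simp only [hn, if_false, zero_add]
  have hnp1 : 0 ≤ ∑ n ∈ Finset.Ioc ⌊Real.exp a⌋₊ ⌊Real.exp b⌋₊,
        (if n.Prime then 0 else ArithmeticFunction.vonMangoldt n) / (n : ℝ) :=
    Finset.sum_nonneg fun n _ => hnn n
  have hnp2 : ∑ n ∈ Finset.Ioc ⌊Real.exp a⌋₊ ⌊Real.exp b⌋₊,
        (if n.Prime then 0 else ArithmeticFunction.vonMangoldt n) / (n : ℝ) ≤ S :=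
    np_summable.sum_le_tsum _ fun n _ => hnn n
  rw [abs_le] at ha1 hb1 ⊢
  constructor <;> linarith [ha1.1, ha1.2, hb1.1, hb1.2]

theorem mertens_lip : ∃ C : ℝ, 0 < C ∧ ∀ a b A Bl : ℝ, 0 ≤ a → a ≤ b → 0 ≤ Bl → ∀ φ : ℝ → ℝ,
    (∀ x, a ≤ x → x ≤ b → |φ x| ≤ A) →
    (∀ x y, a ≤ x → x ≤ b → a ≤ y → y ≤ b → |φ x - φ y| ≤ Bl * |x - y|) →
    |(∑ p ∈ prs a b, Real.log p / (p : ℝ) * φ (Real.log p)) - ∫ x in a..b, φ x| ≤
      C * (A + Bl * (b - a + 1)) := by
  obtain ⟨C, hC, hM⟩ := mertens_prime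
  refine ⟨2 * C + 2, by positivity, fun a b A Bl ha hab hBl φ hA hL => ?_⟩
  set W : ℝ → ℝ → ℝ := fun x y => ∑ p ∈ prs x y, Real.log p / (p : ℝ) with hW
  set D : ℝ → ℝ := fun x => (∑ p ∈ prs a x, Real.log p / (p : ℝ) * φ (Real.log p)) -
    (∫ t in a..x, φ t) - φ x * (W a x - (x - a)) with hD
  have hcont : ContinuousOn φ (Set.Icc a b) := by
    have : LipschitzOnWith (Real.toNNReal Bl) φ (Set.Icc a b) := by
      apply LipschitzOnWith.of_dist_le_mul
      intro x hx y hy
      rw [Real.dist_eq, Real.dist_eq, Real.coe_toNNReal _ hBl]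
      exact hL x y hx.1 hx.2 hy.1 hy.2
    exact this.continuousOn
  have hint : ∀ x y, a ≤ x → x ≤ y → y ≤ b → IntervalIntegrable φ volume x y := by
    intro x y h1 h2 h3
    apply ContinuousOn.intervalIntegrable
    rw [Set.uIcc_of_le h2]
    exact hcont.mono (Set.Icc_subset_Icc h1 h3)
  have hstep : ∀ x y, a ≤ x → x ≤ y → y ≤ b → y ≤ x + 1 →
      |D y - D x| ≤ (2 * C + 2) * Bl * (y - x) := by
    intro x y h1 h2 h3 h4
    have e1 := prs_split h1 h2 (fun p => Real.log p / (p : ℝ) * φ (Real.log p))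
    have e2 := prs_split h1 h2 (fun p => Real.log p / (p : ℝ))
    have e3 : (∫ t in a..y, φ t) = (∫ t in a..x, φ t) + ∫ t in x..y, φ t :=
      (intervalIntegral.integral_add_adjacent_intervals (hint a x le_rfl h1 (h2.trans h3))
        (hint x y h1 h2 h3)).symm
    have e4 : (∑ p ∈ prs x y, Real.log p / (p : ℝ) * φ (Real.log p)) - φ y * W x y =
        ∑ p ∈ prs x y, Real.log p / (p : ℝ) * (φ (Real.log p) - φ y) := by
      simp only [hW]
      rw [Finset.mul_sum, ← Finset.sum_sub_distrib]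
      apply Finset.sum_congr rfl
      intro p _
      ring
    have e5 : (∫ t in x..y, φ t) - φ y * (y - x) = ∫ t in x..y, (φ t - φ y) := by
      rw [intervalIntegral.integral_sub (hint x y h1 h2 h3) intervalIntegrable_const,
        intervalIntegral.integral_const, smul_eq_mul]
      ring
    have e6 : D y - D x = (∑ p ∈ prs x y, Real.log p / (p : ℝ) * (φ (Real.log p) - φ y)) -
        (∫ t in x..y, (φ t - φ y)) - (φ y - φ x) * (W a x - (x - a)) := by
      rw [← e4, ← e5]
      simp only [hD]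
      rw [e1, e3]
      have e2' : W a y = W a x + W x y := e2
      rw [e2']
      ring
    have b1 : |∑ p ∈ prs x y, Real.log p / (p : ℝ) * (φ (Real.log p) - φ y)| ≤
        Bl * (y - x) * (C + 1) := by
      calc |∑ p ∈ prs x y, Real.log p / (p : ℝ) * (φ (Real.log p) - φ y)|
          ≤ ∑ p ∈ prs x y, |Real.log p / (p : ℝ) * (φ (Real.log p) - φ y)| :=
            Finset.abs_sum_le_sum_abs _ _
        _ ≤ ∑ p ∈ prs x y, Real.log p / (p : ℝ) * (Bl * (y - x)) := by
            apply Finset.sum_le_sum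
            intro p hp
            rw [mem_prs] at hp
            have hp0 : 0 ≤ Real.log p / (p : ℝ) :=
              div_nonneg (by linarith [hp.2.1]) (Nat.cast_nonneg p)
            rw [abs_mul, abs_of_nonneg hp0]
            apply mul_le_mul_of_nonneg_left _ hp0
            refine (hL _ _ (by linarith [hp.2.1]) (by linarith [hp.2.2]) (by linarith) h3).trans ?_
            apply mul_le_mul_of_nonneg_left _ hBl
            rw [abs_le]
            constructor <;> linarith [hp.2.1, hp.2.2]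
        _ = W x y * (Bl * (y - x)) := by
            rw [← Finset.sum_mul]
        _ ≤ (C + 1) * (Bl * (y - x)) := by
            apply mul_le_mul_of_nonneg_right _ (mul_nonneg hBl (by linarith))
            have := (abs_le.1 (hM x y (ha.trans h1) h2)).2
            simp only [hW]
            linarith
        _ = Bl * (y - x) * (C + 1) := by ring
    have b2 : |∫ t in x..y, (φ t - φ y)| ≤ Bl * (y - x) * 1 := by
      have := intervalIntegral.norm_integral_le_of_norm_le_const (a := x) (b := y)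
        (f := fun t => φ t - φ y) (C := Bl * (y - x)) (by
          intro t ht
          rw [Set.uIoc_of_le h2] at ht
          rw [Real.norm_eq_abs]
          refine (hL _ _ (by linarith [ht.1]) (by linarith [ht.2]) (by linarith) h3).trans ?_
          apply mul_le_mul_of_nonneg_left _ hBl
          rw [abs_le]
          constructor <;> linarith [ht.1, ht.2])
      rw [Real.norm_eq_abs] at this
      refine this.trans ?_
      apply mul_le_mul_of_nonneg_left _ (mul_nonneg hBl (by linarith))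
      rw [abs_of_nonneg (by linarith)]
      linarith
    have b3 : |(φ y - φ x) * (W a x - (x - a))| ≤ Bl * (y - x) * C := by
      rw [abs_mul]
      apply mul_le_mul _ (hM a x ha h1) (abs_nonneg _) (mul_nonneg hBl (by linarith))
      have := hL y x (by linarith) h3 h1 (by linarith)
      rwa [abs_of_nonneg (by linarith : (0 : ℝ) ≤ y - x)] at this
    rw [e6]
    have b4 := abs_sub (∑ p ∈ prs x y, Real.log p / (p : ℝ) * (φ (Real.log p) - φ y) -
      ∫ t in x..y, (φ t - φ y)) ((φ y - φ x) * (W a x - (x - a)))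
    have b5 := abs_sub (∑ p ∈ prs x y, Real.log p / (p : ℝ) * (φ (Real.log p) - φ y))
      (∫ t in x..y, (φ t - φ y))
    have : Bl * (y - x) * (C + 1) + Bl * (y - x) * 1 + Bl * (y - x) * C =
      (2 * C + 2) * Bl * (y - x) := by ring
    linarith
  have hDa : D a = 0 := by
    have : prs a a = ∅ := by
      apply Finset.eq_empty_of_forall_notMem
      intro p hp
      rw [mem_prs] at hp
      linarith [hp.2.1, hp.2.2]
    simp only [hD, hW, this, Finset.sum_empty, intervalIntegral.integral_same]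
    ring
  have hall : ∀ n : ℕ, ∀ x, a ≤ x → x ≤ b → x ≤ a + n → |D x| ≤ (2 * C + 2) * Bl * (x - a) := by
    intro n
    induction n with
    | zero =>
      intro x h1 h2 h3
      have : x = a := le_antisymm (by simpa using h3) h1
      rw [this, hDa]
      simp
    | succ n ih =>
      intro x h1 h2 h3
      push_cast at h3
      rcases le_total (x - 1) a with h | h
      · have := hstep a x le_rfl h1 h2 (by linarith)
        rwa [hDa, sub_zero] at this
      · have i1 := ih (x - 1) h (by linarith) (by linarith)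
        have i2 := hstep (x - 1) x h (by linarith) h2 (by linarith)
        have i3 := abs_sub_abs_le_abs_sub (D x) (D (x - 1))
        have : (2 * C + 2) * Bl * (x - 1 - a) + (2 * C + 2) * Bl * (x - (x - 1)) =
          (2 * C + 2) * Bl * (x - a) := by ring
        linarith
  obtain ⟨n, hn⟩ := exists_nat_ge (b - a)
  have hDb := hall n b hab le_rfl (by linarith)
  have hA0 : |φ b| ≤ A := hA b hab le_rfl
  have hA1 : 0 ≤ A := (abs_nonneg _).trans hA0
  have hEb : |φ b * (W a b - (b - a))| ≤ A * C := by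
    rw [abs_mul]
    exact mul_le_mul hA0 (hM a b ha hab) (abs_nonneg _) hA1
  have hfin : (∑ p ∈ prs a b, Real.log p / (p : ℝ) * φ (Real.log p)) - (∫ x in a..b, φ x) =
      D b + φ b * (W a b - (b - a)) := by
    simp only [hD]
    ring
  rw [hfin]
  have := abs_add_le (D b) (φ b * (W a b - (b - a)))
  have h2 : 0 ≤ Bl * (2 * C + 2) := by positivity
  have h3 : A * C ≤ (2 * C + 2) * A := by nlinarith
  nlinarith
  
end Pool.Agent.FZ
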