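import Pool.Agent.ZC.GConv

/-!
# FZ/Defs: definitions for the family theorem (MP_1e057a_nt), architect helper52

See FZ/BLUEPRINT.md. `L = log (Q T)`, `Δ = T ^ (1 - δ)`, window `η = T ^ (-1 + 2 δ)`.
-/

namespace Pool.Agent.FZ

open Complex MeasureTheory ArithmeticFunction

/-- Lipschitz kernels -/
structure LKer (g : ℝ → ℝ) : Prop where
  ker : PCZ.Ker g
  lip : ∃ K : ℝ, ∀ x y, |g x - g y| ≤ K * |x - y|

/-- the smooth entire cut-off: `1_[T,2T]` convolved with the Gaussian density of width `Δ` -/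
noncomputable def om (Δ T : ℝ) (z : ℂ) : ℂ :=
  ∫ u in T..(2 * T), ((1 / (Δ * √(2 * Real.pi)) : ℝ) : ℂ) *
    cexp (-(z - (u : ℂ)) ^ 2 / ((2 * Δ ^ 2 : ℝ) : ℂ))

/-- its Fourier transform `∫ om(y) exp (i v y) dy` -/
noncomputable def omh (Δ T v : ℝ) : ℂ :=
  ∫ u in T..(2 * T), cexp (((-(Δ ^ 2 * v ^ 2 / 2) : ℝ) : ℂ) + ((u * v : ℝ) : ℂ) * I)

/-- the sum over prime powers near `exp α` -/
noncomputable def YY {q : ℕ} (χ : DirichletCharacter ℂ q) (δ T α : ℝ) : ℂ :=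
  ∑' n : ℕ, ((vonMangoldt n : ℝ) : ℂ) * χ n * (((n : ℝ) ^ (-(1 / 2) : ℝ) : ℝ) : ℂ) *
    omh (T ^ (1 - δ)) T (α - Real.log n)

/-- the window of primes `p` with `|α - log p| ≤ T ^ (-1 + 2 δ)` -/
noncomputable def win (δ T α : ℝ) : Finset ℕ :=
  (Finset.range (⌊Real.exp (α + 1)⌋₊ + 1)).filter
    (fun p => p.Prime ∧ |α - Real.log p| ≤ T ^ (-1 + 2 * δ))

/-- the coefficient `log p * p ^ (-1/2) * omh (α - log p)` -/
noncomputable def ap (δ T α : ℝ) (p : ℕ) : ℂ :=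
  ((Real.log p * (p : ℝ) ^ (-(1 / 2) : ℝ) : ℝ) : ℂ) * omh (T ^ (1 - δ)) T (α - Real.log p)

/-- the additive character -/
noncomputable def ee (x : ℝ) : ℂ := cexp (2 * Real.pi * I * (x : ℂ))

/-- positive part -/
noncomputable def pp (x : ℝ) : ℝ := max x 0

/-- the trapezoid weight: zero up to `b D`, one on `[(b+1) D, κ b D]`, zero beyond `κ (b+1) D` -/
noncomputable def pw (b κ D : ℕ) (x : ℝ) : ℝ :=
  (pp (κ * (b + 1) * D - x) - pp (κ * b * D - x)) / (κ * D) -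
    (pp ((b + 1) * D - x) - pp (b * D - x)) / D

/-- the total weight `∑ d, pw b κ D d` -/
noncomputable def WW (b κ D : ℕ) : ℝ := ((κ : ℝ) - 1) * (2 * b + 1) * D / 2

end Pool.Agent.FZ
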